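import Pool.Agent.W744.BU.Stm

/-!
# Project BU: the path of elements is continuous and has the right end points (BU-TC)
-/

set_option autoImplicit false

open Set Filter Topology

namespace Pool.Agent.W327.BU.TC

open Pool.Agent.W744.BU

section basic

variable {B : Type} [CStarAlgebra B]

lemma norm_le_one {x : B} (hx : x ∈ unitary B) : ‖x‖ ≤ 1 := by
  rcases subsingleton_or_nontrivial B with h | h
  · rw [Subsingleton.elim x 0, norm_zero]
    exact zero_le_one
  · exact (CStarRing.norm_of_mem_unitary hx).le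

lemma isU {x : B} (hx : x ∈ unitary B) {r : ℝ} (h0 : 0 ≤ r) (h1 : r < 1) :
    IsUnit ((1 : B) - (r : ℂ) • x) := by
  have h : ‖(r : ℂ) • x‖ < 1 := by
    rw [norm_smul, Complex.norm_real, Real.norm_eq_abs, abs_of_nonneg h0]
    calc r * ‖x‖ ≤ r * 1 := mul_le_mul_of_nonneg_left (norm_le_one hx) h0
      _ < 1 := by linarith
  exact (Units.oneSub _ h).isUnit

lemma rr_nonneg {t : ℝ} (h1 : t ≤ 1) : 0 ≤ rr t := by
  unfold rr
  have : 0 ≤ min (1 : ℝ) (2 * (1 - t)) := le_min zero_le_one (by linarith)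
  positivity

lemma rr_lt_one (t : ℝ) : rr t < 1 := by
  unfold rr
  have : min (1 : ℝ) (2 * (1 - t)) ≤ 1 := min_le_left _ _
  linarith

lemma qq_nonneg (t : ℝ) : 0 ≤ qq t := le_max_left _ _

lemma qq_le_one {t : ℝ} (h0 : 0 ≤ t) : qq t ≤ 1 := max_le zero_le_one (by linarith)

lemma cont_rr : Continuous fun t : unitInterval => rr (t : ℝ) := by
  unfold rr
  fun_prop

lemma cont_qq : Continuous fun t : unitInterval => qq (t : ℝ) := by
  unfold qq
  fun_prop

/-- the coefficient, for all times -/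
lemma coef (t : ℝ) : (qq t + (1 - qq t) * rr t)⁻¹ * Real.sqrt (qq t * (1 - qq t)) =
    (qq t + (1 - qq t) * (49 / 50))⁻¹ * Real.sqrt (qq t * (1 - qq t)) := by
  rcases le_total t (1 / 2) with h | h
  · have : rr t = 49 / 50 := by
      unfold rr
      rw [min_eq_left (by linarith)]
      norm_num
    rw [this]
  · have : qq t = 0 := by
      unfold qq
      exact max_eq_left (by linarith)
    rw [this]
    simp

lemma cont_coef : Continuous fun t : unitInterval =>
    (qq (t : ℝ) + (1 - qq (t : ℝ)) * (49 / 50))⁻¹ *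
      Real.sqrt (qq (t : ℝ) * (1 - qq (t : ℝ))) := by
  have hq := cont_qq
  refine Continuous.mul (Continuous.inv₀ (by fun_prop) ?_) (by fun_prop)
  intro t
  have h0 := qq_nonneg (t : ℝ)
  have h1 := qq_le_one t.2.1
  have : 0 < qq (t : ℝ) + (1 - qq (t : ℝ)) * (49 / 50) := by nlinarith
  exact this.ne'

lemma cont_bF {x : B} (hx : x ∈ unitary B) :
    Continuous fun t : unitInterval => bF (rr (t : ℝ)) x := by
  have hr := cont_rr
  unfold bF
  have h1 : Continuous fun t : unitInterval => ((rr (t : ℝ) : ℝ) : ℂ) :=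
    Complex.continuous_ofReal.comp hr
  have h2 : Continuous fun t : unitInterval => (1 : B) - ((rr (t : ℝ) : ℝ) : ℂ) • x :=
    continuous_const.sub (h1.smul continuous_const)
  have h3 : Continuous fun t : unitInterval =>
      Ring.inverse ((1 : B) - ((rr (t : ℝ) : ℝ) : ℂ) • x) := by
    rw [continuous_iff_continuousAt]
    intro t
    obtain ⟨u, hu⟩ := isU hx (rr_nonneg t.2.2) (rr_lt_one (t : ℝ))
    have h4 := NormedRing.inverse_continuousAt u
    rw [hu] at h4
    exact ContinuousAt.comp (f := fun t : unitInterval => (1 : B) - ((rr (t : ℝ) : ℝ) : ℂ) • x)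
      h4 h2.continuousAt
  exact ((h1.smul continuous_const).sub continuous_const).mul h3

lemma cont_AF {x : B} (hx : x ∈ unitary B) :
    Continuous fun t : unitInterval => AF (qq (t : ℝ)) (rr (t : ℝ)) x := by
  have hb := cont_bF hx
  have hq := cont_qq
  unfold AF
  have h1 : Continuous fun t : unitInterval =>
      ((Real.sqrt (qq (t : ℝ) * (1 - qq (t : ℝ))) : ℝ) : ℂ) :=
    Complex.continuous_ofReal.comp (by fun_prop)
  exact h1.smul (continuous_const.sub hb)

lemma cont_BF {x : B} (hx : x ∈ unitary B) :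
    Continuous fun t : unitInterval => BF (qq (t : ℝ)) (rr (t : ℝ)) x := by
  have hb := cont_bF hx
  have hq := cont_qq
  unfold BF
  have h1 : Continuous fun t : unitInterval => ((qq (t : ℝ) : ℝ) : ℂ) :=
    Complex.continuous_ofReal.comp hq
  have h2 : Continuous fun t : unitInterval => ((1 - qq (t : ℝ) : ℝ) : ℂ) :=
    Complex.continuous_ofReal.comp (by fun_prop)
  exact (h1.smul continuous_const).add (h2.smul hb)

lemma c_eq (t : ℝ) (x : B) :
    (((qq t + (1 - qq t) * rr t)⁻¹ : ℝ) : ℂ) • AF (qq t) (rr t) x =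
    (((qq t + (1 - qq t) * (49 / 50))⁻¹ * Real.sqrt (qq t * (1 - qq t)) : ℝ) : ℂ) •
      ((1 : B) - bF (rr t) x) := by
  unfold AF
  rw [smul_smul, ← Complex.ofReal_mul, coef]

lemma cont_c {x : B} (hx : x ∈ unitary B) :
    Continuous fun t : unitInterval =>
      (((qq (t : ℝ) + (1 - qq (t : ℝ)) * rr (t : ℝ))⁻¹ : ℝ) : ℂ) •
        AF (qq (t : ℝ)) (rr (t : ℝ)) x := by
  have hb := cont_bF hx
  have hk := cont_coef
  have h : (fun t : unitInterval =>
      (((qq (t : ℝ) + (1 - qq (t : ℝ)) * rr (t : ℝ))⁻¹ : ℝ) : ℂ) •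
        AF (qq (t : ℝ)) (rr (t : ℝ)) x) = fun t : unitInterval =>
      (((qq (t : ℝ) + (1 - qq (t : ℝ)) * (49 / 50))⁻¹ *
        Real.sqrt (qq (t : ℝ) * (1 - qq (t : ℝ))) : ℝ) : ℂ) • ((1 : B) - bF (rr (t : ℝ)) x) := by
    funext t
    exact c_eq (t : ℝ) x
  rw [h]
  have h1 : Continuous fun t : unitInterval =>
      (((qq (t : ℝ) + (1 - qq (t : ℝ)) * (49 / 50))⁻¹ *
        Real.sqrt (qq (t : ℝ) * (1 - qq (t : ℝ))) : ℝ) : ℂ) :=
    Complex.continuous_ofReal.comp hk
  exact h1.smul (continuous_const.sub hb)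

lemma cont_tau {x : B} (hx : x ∈ unitary B) (y : B) :
    Continuous fun t : unitInterval => tauF (qq (t : ℝ)) (rr (t : ℝ)) x y := by
  have hA := cont_AF hx
  have hB := cont_BF hx
  have hc := cont_c hx
  unfold tauF tau
  exact ((continuous_const.add ((hB.mul continuous_const).mul hB.star)).mul
    continuous_const).star.sub (hc.mul ((hB.mul continuous_const).mul hA).star)

lemma tau_zero (x : B) {y : B} (hy : y ∈ unitary B) : tauF (qq 0) (rr 0) x y = 1 := by
  have hq : qq 0 = 1 := by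
    unfold qq
    norm_num
  have hA : AF (qq 0) (rr 0) x = 0 := by
    unfold AF
    rw [hq]
    simp
  have hB : BF (qq 0) (rr 0) x = 1 := by
    unfold BF
    rw [hq]
    simp
  unfold tauF tau
  rw [hA, hB, smul_zero, zero_mul, sub_zero, one_mul, star_one, mul_one,
    add_sub_cancel, star_mul, star_star]
  exact Unitary.mul_star_self_of_mem hy

lemma tau_one {x : B} (y : B) (hx : x ∈ unitary B) :
    tauF (qq 1) (rr 1) x y = y * x * star y * star x := by
  have hq : qq 1 = 0 := by
    unfold qq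
    norm_num
  have hr : rr 1 = 0 := by
    unfold rr
    norm_num
  have hb : bF (rr 1) x = -x := by
    unfold bF
    rw [hr]
    simp
  have hA : AF (qq 1) (rr 1) x = 0 := by
    unfold AF
    rw [hq]
    simp
  have hB : BF (qq 1) (rr 1) x = -x := by
    unfold BF
    rw [hq, hb]
    simp
  unfold tauF tau
  rw [hA, hB, smul_zero, zero_mul, sub_zero]
  have h1 : (1 : B) + -x * (y - 1) * star (-x) = x * y * star x := by
    rw [star_neg, neg_mul, neg_mul, mul_neg, neg_neg, mul_sub, mul_one, sub_mul,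
      Unitary.mul_star_self_of_mem hx]
    abel
  rw [h1]
  simp only [star_mul, star_star, mul_assoc]

end basic

lemma map_inv {B C : Type} [CStarAlgebra B] [CStarAlgebra C] (f : B →⋆ₐ[ℂ] C) (g : B)
    (hg : IsUnit g) : f (Ring.inverse g) = Ring.inverse (f g) := by
  obtain ⟨u, rfl⟩ := hg
  rw [Ring.inverse_unit]
  have h : f (u : B) = ((Units.map (f : B →* C) u : Cˣ) : C) := rfl
  rw [h, Ring.inverse_unit]
  rfl

lemma map_bF {B C : Type} [CStarAlgebra B] [CStarAlgebra C] (f : B →⋆ₐ[ℂ] C) {x : B}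
    (hx : x ∈ unitary B) {r : ℝ} (h0 : 0 ≤ r) (h1 : r < 1) :
    f (bF r x) = bF r (f x) := by
  unfold bF
  rw [map_mul, map_inv f _ (isU hx h0 h1)]
  simp only [map_sub, map_smul, map_one]

lemma map_tau {B C : Type} [CStarAlgebra B] [CStarAlgebra C] (f : B →⋆ₐ[ℂ] C) {x : B} (y : B)
    (hx : x ∈ unitary B) (q : ℝ) {r : ℝ} (h0 : 0 ≤ r) (h1 : r < 1) :
    f (tauF q r x y) = tauF q r (f x) (f y) := by
  unfold tauF tau AF BF
  simp only [map_sub, map_add, map_mul, map_smul, map_one, map_star, map_bF f hx h0 h1]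

theorem main : S_TC := by
  refine ⟨?_, ?_⟩
  · intro B _ x y hx hy
    exact ⟨cont_tau hx y, tau_zero x hy, tau_one y hx⟩
  · intro B C _ _ f x y hx t _ h1
    exact map_tau f y hx (qq t) (rr_nonneg h1) (rr_lt_one t)

end Pool.Agent.W327.BU.TC
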